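import Pool.Agent.H31.XCE.Targets

set_option autoImplicit false

open Finset Pool.Agent.H31.XCE

namespace Pool.Agent.H69.XCE

/-- products over an image -/
theorem prod_comp_le {α : Type} (T : Finset α) (ρ : α → ℕ) (f : ℕ → ℝ)
    (h : ∀ x ∈ T, 0 ≤ f (ρ x) ∧ f (ρ x) ≤ 1) :
    ∏ x ∈ T, f (ρ x) ≤ ∏ p ∈ T.image ρ, f p := by
  classical
  rw [Finset.prod_comp f ρ]
  refine Finset.prod_le_prod ?_ ?_
  · intro p hp
    obtain ⟨x, hx, rfl⟩ := Finset.mem_image.1 hp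
    exact pow_nonneg (h x hx).1 _
  · intro p hp
    obtain ⟨x, hx, rfl⟩ := Finset.mem_image.1 hp
    refine pow_le_of_le_one (h x hx).1 (h x hx).2 ?_
    rw [Finset.card_ne_zero]
    exact ⟨x, Finset.mem_filter.2 ⟨hx, rfl⟩⟩

theorem fresh_card {n : ℕ} (ρ : Fin n → ℕ) (U : Finset (Fin n)) :
    (fresh ρ U).card ≤ (U.image ρ).card + Uᶜ.card := by
  classical
  have h1 : (fresh ρ U) ⊆ ((fresh ρ U).filter fun t => t ∈ U) ∪ Uᶜ := by
    intro t ht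
    by_cases h : t ∈ U
    · exact Finset.mem_union_left _ (Finset.mem_filter.2 ⟨ht, h⟩)
    · exact Finset.mem_union_right _ (Finset.mem_compl.2 h)
  refine (Finset.card_le_card h1).trans ((Finset.card_union_le _ _).trans ?_)
  refine Nat.add_le_add_right ?_ _
  refine Finset.card_le_card_of_injOn ρ ?_ ?_
  · intro t ht
    have ht' := Finset.mem_filter.1 ht
    exact Finset.mem_coe.2 (Finset.mem_image_of_mem ρ ht'.2)
  · intro s hs t ht hst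
    have hs' := Finset.mem_filter.1 (Finset.mem_coe.1 hs)
    have ht' := Finset.mem_filter.1 (Finset.mem_coe.1 ht)
    have hsf := (Finset.mem_filter.1 hs'.1).2 hs'.2
    have htf := (Finset.mem_filter.1 ht'.1).2 ht'.2
    rcases lt_trichotomy s t with h | h | h
    · exact absurd hst (htf s hs'.2 h)
    · exact h
    · exact absurd hst.symm (hsf t ht'.2 h)

theorem pf_FRS : T_FRS := by
  intro n S ρ U hS hρ
  classical
  have hS0 : (0 : ℝ) < S := by exact_mod_cast hS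
  have hS1 : (1 : ℝ) ≤ S := by exact_mod_cast hS
  have hf : ∀ x, 0 ≤ (S : ℝ) / ((ρ x : ℕ) : ℝ) ∧ (S : ℝ) / ((ρ x : ℕ) : ℝ) ≤ 1 := by
    intro x
    refine ⟨by positivity, ?_⟩
    have h1 : (S : ℝ) ≤ ρ x := by exact_mod_cast hρ x
    exact div_le_one_of_le₀ h1 (by positivity)
  have hsub : U.image ρ ⊆ univ.image ρ := Finset.image_subset_image (Finset.subset_univ U)
  have h1 : (S : ℝ) ^ (fresh ρ U).card ≤ (S : ℝ) ^ ((U.image ρ).card + Uᶜ.card) :=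
    pow_le_pow_right₀ hS1 (fresh_card ρ U)
  have hwt : 0 ≤ wt ρ U := by
    unfold wt
    exact mul_nonneg (Finset.prod_nonneg fun x _ => by positivity)
      (Finset.prod_nonneg fun x _ => by positivity)
  have h2 : wt ρ U * (S : ℝ) ^ ((U.image ρ).card + Uᶜ.card) =
      (∏ x ∈ Uᶜ, (S : ℝ) / ((ρ x : ℕ) : ℝ)) * ∏ p ∈ U.image ρ, (S : ℝ) / ((p : ℕ) : ℝ) := by
    unfold wt
    have e1 : (∏ x ∈ Uᶜ, (S : ℝ) / ((ρ x : ℕ) : ℝ)) =
        (S : ℝ) ^ Uᶜ.card * ∏ x ∈ Uᶜ, 1 / ((ρ x : ℕ) : ℝ) := by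
      rw [← Finset.prod_const, ← Finset.prod_mul_distrib]
      exact Finset.prod_congr rfl fun x _ => by rw [mul_one_div]
    have e2 : (∏ p ∈ U.image ρ, (S : ℝ) / ((p : ℕ) : ℝ)) =
        (S : ℝ) ^ (U.image ρ).card * ∏ p ∈ U.image ρ, 1 / ((p : ℕ) : ℝ) := by
      rw [← Finset.prod_const, ← Finset.prod_mul_distrib]
      exact Finset.prod_congr rfl fun x _ => by rw [mul_one_div]
    rw [e1, e2, pow_add]
    ring
  have h3 : (∏ x ∈ Uᶜ, (S : ℝ) / ((ρ x : ℕ) : ℝ)) ≤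
      ∏ p ∈ univ.image ρ \ U.image ρ, (S : ℝ) / ((p : ℕ) : ℝ) := by
    refine (prod_comp_le Uᶜ ρ (fun p => (S : ℝ) / (p : ℝ)) fun x _ => hf x).trans ?_
    have h4 : univ.image ρ \ U.image ρ ⊆ Uᶜ.image ρ := by
      intro p hp
      obtain ⟨h5, h6⟩ := Finset.mem_sdiff.1 hp
      obtain ⟨x, -, rfl⟩ := Finset.mem_image.1 h5
      refine Finset.mem_image_of_mem ρ (Finset.mem_compl.2 fun hx => h6 ?_)
      exact Finset.mem_image_of_mem ρ hx
    rw [← Finset.prod_sdiff h4]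
    have h5 : ∏ p ∈ Uᶜ.image ρ \ (univ.image ρ \ U.image ρ), (S : ℝ) / (p : ℝ) ≤ 1 := by
      refine Finset.prod_le_one ?_ ?_
      · intro p _
        positivity
      · intro p hp
        obtain ⟨x, -, rfl⟩ := Finset.mem_image.1 (Finset.mem_sdiff.1 hp).1
        exact (hf x).2
    have h6 : 0 ≤ ∏ p ∈ univ.image ρ \ U.image ρ, (S : ℝ) / (p : ℝ) :=
      Finset.prod_nonneg fun p _ => by positivity
    calc _ ≤ 1 * ∏ p ∈ univ.image ρ \ U.image ρ, (S : ℝ) / (p : ℝ) :=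
          mul_le_mul_of_nonneg_right h5 h6
      _ = _ := one_mul _
  calc wt ρ U * (S : ℝ) ^ (fresh ρ U).card ≤ wt ρ U * (S : ℝ) ^ ((U.image ρ).card + Uᶜ.card) :=
        mul_le_mul_of_nonneg_left h1 hwt
    _ = (∏ x ∈ Uᶜ, (S : ℝ) / ((ρ x : ℕ) : ℝ)) * ∏ p ∈ U.image ρ, (S : ℝ) / ((p : ℕ) : ℝ) := h2
    _ ≤ (∏ p ∈ univ.image ρ \ U.image ρ, (S : ℝ) / ((p : ℕ) : ℝ)) *
          ∏ p ∈ U.image ρ, (S : ℝ) / ((p : ℕ) : ℝ) :=
        mul_le_mul_of_nonneg_right h3 (Finset.prod_nonneg fun p _ => by positivity)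
    _ = ∏ p ∈ univ.image ρ, (S : ℝ) / ((p : ℕ) : ℝ) := Finset.prod_sdiff hsub

end Pool.Agent.H69.XCE
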