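import Pool.Agent.H31.XCE.Targets

set_option autoImplicit false

open Finset Pool.Agent.H31.XCE

namespace Pool.Agent.H69.XCE

open scoped Classical in
theorem sum_EE (hN : T_CNT) (hF : T_FRS) (n S : ℕ) (ρ : Fin n → ℕ)
    (ν : (Fin n → ℕ) → Fin n → ℤ) (hS : 1 ≤ S) (hρ : ∀ x, S ≤ ρ x)
    (hν : ∀ (o o' : Fin n → ℕ) (t : Fin n), (∀ s, s < t → o s = o' s) →
      ν o t - o t = ν o' t - o' t) :
    ∑ o ∈ Fintype.piFinset (fun _ : Fin n => range S), EE ρ (ν o) ≤
      2 ^ n * ∏ p ∈ univ.image ρ, (S : ℝ) / ((p : ℕ) : ℝ) := by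
  unfold EE
  rw [Finset.sum_comm]
  have h1 : ∀ U ∈ (univ : Finset (Fin n)).powerset,
      ∑ o ∈ Fintype.piFinset (fun _ : Fin n => range S),
        (if Cons ρ (ν o) U then wt ρ U else 0) ≤
        ∏ p ∈ univ.image ρ, (S : ℝ) / ((p : ℕ) : ℝ) := by
    intro U _
    have hwt : 0 ≤ wt ρ U := by
      unfold wt
      exact mul_nonneg (Finset.prod_nonneg fun x _ => by positivity)
        (Finset.prod_nonneg fun x _ => by positivity)
    rw [← Finset.sum_filter, Finset.sum_const, nsmul_eq_mul]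
    have h2 := hN n S ρ ν hρ hν U
    have h3 : ((((Fintype.piFinset fun _ : Fin n => range S).filter
        fun o => Cons ρ (ν o) U).card : ℕ) : ℝ) ≤ (S : ℝ) ^ (fresh ρ U).card := by
      exact_mod_cast h2
    calc _ ≤ (S : ℝ) ^ (fresh ρ U).card * wt ρ U := mul_le_mul_of_nonneg_right h3 hwt
      _ = wt ρ U * (S : ℝ) ^ (fresh ρ U).card := mul_comm _ _
      _ ≤ _ := hF n S ρ U hS hρ
  refine (Finset.sum_le_sum h1).trans ?_
  rw [Finset.sum_const, nsmul_eq_mul, Finset.card_powerset, Finset.card_univ, Fintype.card_fin]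
  push_cast
  exact le_rfl

open scoped Classical in
theorem pf_WSM (hM : T_MOM) (hN : T_CNT) (hF : T_FRS) (hP : T_PAT) : T_WSM := by
  intro h S Y L P Q ν hS hQ hLL hν
  have hQP : (Q.card : ℝ) ≤ P := by
    have h1 : Q ⊆ Finset.Icc 1 P := by
      intro p hp
      have := hQ p hp
      exact Finset.mem_Icc.2 ⟨this.1.one_lt.le, this.2.2⟩
    have h2 := Finset.card_le_card h1
    rw [Nat.card_Icc] at h2
    exact_mod_cast (by omega : Q.card ≤ P)
  have hQm : ∀ ρ ∈ Fintype.piFinset (fun _ : Fin (2 * h) => Q), ∀ x,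
      (ρ x).Prime ∧ S < ρ x ∧ ρ x ≤ P := by
    intro ρ hρ x
    exact hQ _ (Fintype.mem_piFinset.1 hρ x)
  have h1 : ∀ ρ ∈ Fintype.piFinset (fun _ : Fin (2 * h) => Q),
      ∑ o ∈ Fintype.piFinset (fun _ : Fin (2 * h) => range S),
          |∑ y ∈ Ico Y (Y + L), ∏ t, cd (ρ t) (S * (y : ℤ) + ν o ρ t)| ≤
        (L : ℝ) * (2 ^ (2 * h) * (if NoSing ρ then
          ∏ p ∈ univ.image ρ, (S : ℝ) / ((p : ℕ) : ℝ) else 0)) +
          (S : ℝ) ^ (2 * h) * (2 * (P : ℝ)) ^ (2 * h) := by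
    intro ρ hρ
    have h2 : ∀ o ∈ Fintype.piFinset (fun _ : Fin (2 * h) => range S),
        |∑ y ∈ Ico Y (Y + L), ∏ t, cd (ρ t) (S * (y : ℤ) + ν o ρ t)| ≤
          (L : ℝ) * (if NoSing ρ then EE ρ (ν o ρ) else 0) + (2 * (P : ℝ)) ^ (2 * h) :=
      fun o _ => hM (2 * h) ρ (ν o ρ) S Y L P hS (hQm ρ hρ)
    refine (Finset.sum_le_sum h2).trans ?_
    rw [Finset.sum_add_distrib, ← Finset.mul_sum, Finset.sum_const, nsmul_eq_mul,
      Fintype.card_piFinset, Finset.prod_const, Finset.card_range, Finset.card_univ,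
      Fintype.card_fin]
    push_cast
    refine add_le_add ?_ le_rfl
    refine mul_le_mul_of_nonneg_left ?_ (Nat.cast_nonneg L)
    by_cases hns : NoSing ρ
    · simp only [if_pos hns]
      exact sum_EE hN hF (2 * h) S ρ (fun o => ν o ρ) hS (fun x => (hQm ρ hρ x).2.1.le)
        (fun o o' t ht => hν ρ o o' t ht)
    · simp only [if_neg hns]
      simp
  refine (Finset.sum_le_sum h1).trans ?_
  rw [Finset.sum_add_distrib, ← Finset.mul_sum, ← Finset.mul_sum, Finset.sum_const, nsmul_eq_mul,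
    Fintype.card_piFinset, Finset.prod_const, Finset.card_univ, Fintype.card_fin,
    ← Finset.sum_filter]
  push_cast
  refine add_le_add ?_ ?_
  · refine mul_le_mul_of_nonneg_left ?_ (Nat.cast_nonneg L)
    have h3 := hP S h Q hLL
    calc (2 : ℝ) ^ (2 * h) * _ ≤
          2 ^ (2 * h) * (3 * ((2 * h : ℕ) : ℝ) ^ (2 * h) * (S * LL Q) ^ h) :=
          mul_le_mul_of_nonneg_left h3 (by positivity)
      _ = 3 * (4 * (h : ℝ)) ^ (2 * h) * (S * LL Q) ^ h := by
          push_cast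
          have : (4 * (h : ℝ)) = 2 * (2 * h) := by ring
          rw [this, mul_pow 2 (2 * (h : ℝ))]
          ring
  · have h4 : (Q.card : ℝ) ^ (2 * h) ≤ (P : ℝ) ^ (2 * h) :=
      pow_le_pow_left₀ (Nat.cast_nonneg _) hQP _
    calc (Q.card : ℝ) ^ (2 * h) * ((S : ℝ) ^ (2 * h) * (2 * (P : ℝ)) ^ (2 * h)) ≤
          (P : ℝ) ^ (2 * h) * ((S : ℝ) ^ (2 * h) * (2 * (P : ℝ)) ^ (2 * h)) :=
          mul_le_mul_of_nonneg_right h4 (by positivity)
      _ = ((S : ℝ) * (2 * (P : ℝ) ^ 2)) ^ (2 * h) := by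
          rw [← mul_pow, ← mul_pow]
          congr 1
          ring

end Pool.Agent.H69.XCE
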